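import Pool.Agent.H998.HK.Spec

/-! HK project, task HCAR: functional calculus of a positive injective operator. -/

set_option autoImplicit false

noncomputable section

namespace Pool.Agent.H287.HK

open MeasureTheory Filter Topology Set
open scoped ENNReal NNReal InnerProductSpace
open Pool.Agent.H998.HK

variable {H : Type} [NormedAddCommGroup H] [InnerProductSpace ℂ H] [CompleteSpace H]

/-- the norm of `f(R) v` -/
lemma norm_cfc_sq {R : H →L[ℂ] H} (hR : IsSelfAdjoint R) {f : ℝ → ℝ}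
    (hf : ContinuousOn f (spectrum ℝ R)) (v : H) :
    ‖cfc f R v‖ ^ 2 = RCLike.re (inner ℂ (cfc (fun r => f r ^ 2) R v) v) := by
  have hsa : IsSelfAdjoint (cfc f R) := cfc_predicate f R
  have h1 : cfc (fun r => f r ^ 2) R = cfc f R * cfc f R := by
    rw [← cfc_mul f f R hf hf]
    congr 1
    ext r
    ring
  rw [h1, mul_apply_eq_comp]
  have h2 : inner ℂ (cfc f R (cfc f R v)) v = inner ℂ (cfc f R v) (cfc f R v) := by
    have := (ContinuousLinearMap.isSelfAdjoint_iff_isSymmetric.1 hsa) (cfc f R v) v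
    exact this
  rw [h2, inner_self_eq_norm_sq]

lemma re_mono {R : H →L[ℂ] H} {f g : ℝ → ℝ} (hR : IsSelfAdjoint R)
    (hf : ContinuousOn f (spectrum ℝ R)) (hg : ContinuousOn g (spectrum ℝ R))
    (h : ∀ r ∈ spectrum ℝ R, f r ≤ g r) (v : H) :
    RCLike.re (inner ℂ (cfc f R v) v) ≤ RCLike.re (inner ℂ (cfc g R v) v) := by
  have h1 : cfc f R ≤ cfc g R := cfc_mono h
  rw [ContinuousLinearMap.le_def] at h1
  have h2 := h1.re_inner_nonneg_left v
  rw [sub_apply, inner_sub_left, map_sub] at h2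
  linarith

lemma sum_norm_sq {ι : Type} {R : H →L[ℂ] H} (hR : IsSelfAdjoint R) (s : Finset ι) {f : ι → ℝ → ℝ}
    (hf : ∀ k ∈ s, ContinuousOn (f k) (spectrum ℝ R)) (v : H) :
    ∑ k ∈ s, ‖cfc (f k) R v‖ ^ 2 = RCLike.re (inner ℂ (cfc (fun r => ∑ k ∈ s, f k r ^ 2) R v) v) := by
  have h1 : cfc (fun r => ∑ k ∈ s, f k r ^ 2) R = ∑ k ∈ s, cfc (fun r => f k r ^ 2) R := by
    rw [← cfc_sum (fun k r => f k r ^ 2) R s (fun k hk => (hf k hk).pow 2)]
    congr 1
    ext r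
    simp
  rw [h1, sum_apply, sum_inner, map_sum]
  exact Finset.sum_congr rfl fun k hk => norm_cfc_sq hR (hf k hk) v

/-- comparison of sums of squares -/
lemma sum_le_sum_cfc {ι κ : Type} {R : H →L[ℂ] H} (hR : IsSelfAdjoint R) (s : Finset ι) (t : Finset κ)
    {f : ι → ℝ → ℝ} {g : κ → ℝ → ℝ} (hf : ∀ k ∈ s, ContinuousOn (f k) (spectrum ℝ R))
    (hg : ∀ k ∈ t, ContinuousOn (g k) (spectrum ℝ R))
    (h : ∀ r ∈ spectrum ℝ R, ∑ k ∈ s, f k r ^ 2 ≤ ∑ k ∈ t, g k r ^ 2) (v : H) :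
    ∑ k ∈ s, ‖cfc (f k) R v‖ ^ 2 ≤ ∑ k ∈ t, ‖cfc (g k) R v‖ ^ 2 := by
  rw [sum_norm_sq hR s hf, sum_norm_sq hR t hg]
  refine re_mono hR ?_ ?_ h v
  · exact continuousOn_finsetSum _ fun k hk => (hf k hk).pow 2
  · exact continuousOn_finsetSum _ fun k hk => (hg k hk).pow 2

/-- bound by a multiple of the norm -/
lemma sum_le_norm {ι : Type} {R : H →L[ℂ] H} (hR : IsSelfAdjoint R) (s : Finset ι)
    {f : ι → ℝ → ℝ} (hf : ∀ k ∈ s, ContinuousOn (f k) (spectrum ℝ R)) {c : ℝ} (hc : 0 ≤ c)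
    (h : ∀ r ∈ spectrum ℝ R, ∑ k ∈ s, f k r ^ 2 ≤ c) (v : H) :
    ∑ k ∈ s, ‖cfc (f k) R v‖ ^ 2 ≤ c * ‖v‖ ^ 2 := by
  have h1 := sum_le_sum_cfc hR s ({()} : Finset Unit) (f := f) (g := fun _ _ => √c) hf
    (fun _ _ => continuousOn_const) (by
      intro r hr
      rw [Finset.sum_singleton, Real.sq_sqrt hc]
      exact h r hr) v
  rw [Finset.sum_singleton, cfc_const (√c) R] at h1
  refine h1.trans (le_of_eq ?_)
  rw [Algebra.algebraMap_eq_smul_one, smul_apply, one_apply_eq_self, norm_smul,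
    mul_pow, Real.norm_eq_abs, sq_abs, Real.sq_sqrt hc]

lemma cfc_comp_apply {R : H →L[ℂ] H} {f g : ℝ → ℝ}
    (hf : ContinuousOn f (spectrum ℝ R)) (hg : ContinuousOn g (spectrum ℝ R)) (v : H) :
    cfc f R (cfc g R v) = cfc (fun r => f r * g r) R v := by
  rw [cfc_mul f g R hf hg, mul_apply_eq_comp]

lemma cfc_id_apply {R : H →L[ℂ] H} (hR : IsSelfAdjoint R) (v : H) : cfc (fun r : ℝ => r) R v = R v := by
  rw [cfc_id' ℝ R]

/-- the range of an injective self-adjoint operator is dense -/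
lemma dense_range {R : H →L[ℂ] H} (hR : IsSelfAdjoint R) (hi : Function.Injective R) :
    DenseRange R := by
  have h1 : (LinearMap.range (R : H →ₗ[ℂ] H))ᗮ = ⊥ := by
    rw [Submodule.eq_bot_iff]
    intro v hv
    rw [Submodule.mem_orthogonal] at hv
    apply hi
    rw [map_zero]
    have h2 := hv (R (R v)) ⟨R v, rfl⟩
    have h3 : inner ℂ (R (R v)) v = inner ℂ (R v) (R v) :=
      (ContinuousLinearMap.isSelfAdjoint_iff_isSymmetric.1 hR) (R v) v
    rw [h3] at h2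
    exact inner_self_eq_zero.1 h2
  have h2 := (Submodule.topologicalClosure_eq_top_iff).2 h1
  rw [DenseRange, dense_iff_closure_eq]
  have h3 := congrArg (fun S : Submodule ℂ H => (S : Set H)) h2
  simp only [Submodule.topologicalClosure_coe, Submodule.top_coe] at h3
  rw [← h3]
  congr 1

end Pool.Agent.H287.HK
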