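import Pool.Agent.H287.HK.Main

/-! HK project, task HCAR: conclusion. -/

set_option autoImplicit false

noncomputable section

namespace Pool.Agent.H287.HK

open MeasureTheory Filter Topology Set
open scoped ENNReal NNReal InnerProductSpace
open Pool.Agent.H998.HK

section
variable {H : Type} [NormedAddCommGroup H] [InnerProductSpace ℂ H] [CompleteSpace H]

/-- the pointwise lower bound -/
lemma pt_lower {R : H →L[ℂ] H} (hR : GoodR R) {D P : ℕ} (hD : 1 ≤ D) (hP : 2 ≤ P) (v : H) :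
    ‖cfc (th D) R v‖ ^ 2 ≤ 8 * ∑ k ∈ Finset.Icc P (D * P),
      kap (D * P) k * ‖cfc (Gk (D * P) k) R (Rpow R (1 / 4) v)‖ ^ 2 := by
  have c14 : Continuous (fun r : ℝ => r ^ (1 / 4 : ℝ)) := Real.continuous_rpow_const (by norm_num)
  have h1 := sum_le_sum_cfc hR.sa ({()} : Finset Unit) (Finset.Icc P (D * P)) (f := fun _ r => th D r / √8)
    (g := fun k r => √(kap (D * P) k) * (Gk (D * P) k r * r ^ (1 / 4 : ℝ)))
    (fun _ _ => ((th_cont D).div_const _).continuousOn)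
    (fun k _ => (continuous_const.mul ((Gk_cont _ k).mul c14)).continuousOn) (by
      intro r hr
      rw [Finset.sum_singleton]
      exact lower hD hP (hR.spec r hr).1 (hR.spec r hr).2) v
  rw [Finset.sum_singleton] at h1
  have e1 : cfc (th D) R v = √8 • cfc (fun r => th D r / √8) R v := by
    have h8 : √(8 : ℝ) ≠ 0 := by positivity
    have e2 : th D = fun r => √8 * (th D r / √8) := by
      ext r
      field_simp
    conv_lhs => rw [e2]
    rw [cfc_const_mul _ _ R ((th_cont D).div_const _).continuousOn, smul_apply]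
  rw [e1, norm_smul, mul_pow, Real.norm_eq_abs, sq_abs, Real.sq_sqrt (by norm_num)]
  refine mul_le_mul_of_nonneg_left (h1.trans (le_of_eq ?_)) (by norm_num)
  refine Finset.sum_congr rfl fun k _ => ?_
  have cc : ContinuousOn (fun r : ℝ => Gk (D * P) k r * r ^ (1 / 4 : ℝ)) (spectrum ℝ R) :=
    ((Gk_cont _ k).mul c14).continuousOn
  have e3 := cfc_comp_apply (R := R) (Gk_cont (D * P) k).continuousOn c14.continuousOn v
  rw [cfc_const_mul _ _ R cc, smul_apply, norm_smul, mul_pow,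
    Real.norm_eq_abs, sq_abs, Real.sq_sqrt (show 0 ≤ kap (D * P) k from Real.sqrt_nonneg _), ← e3]
  rfl

/-- the pointwise upper bound -/
lemma pt_upper {R : H →L[ℂ] H} (hR : GoodR R) {D P : ℕ} (hD : 1 ≤ D) (hP : 2 ≤ P) (g g₃ χ : H) :
    ∑ k ∈ Finset.Icc P (D * P), (‖cfc (Hk D (D * P) k) R g‖ ^ 2 +
        2 * ‖cfc (Gk (D * P) k) R g₃‖ ^ 2 + 2 * ‖cfc (Ek D (D * P) k) R χ‖ ^ 2) ≤
      4 * (‖g‖ ^ 2 + ‖g₃‖ ^ 2) + 4 * (2 * D / P) ^ 2 * ‖χ‖ ^ 2 := by
  rw [Finset.sum_add_distrib, Finset.sum_add_distrib, ← Finset.mul_sum, ← Finset.mul_sum]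
  have h1 := sum_le_norm hR.sa (Finset.Icc P (D * P)) (f := fun k => Hk D (D * P) k)
    (fun k _ => (Hk_cont hD _ k).continuousOn) (c := 4) (by norm_num)
    (fun r hr => sum_Hk hD hP (hR.spec r hr).1) g
  have h2 := sum_le_norm hR.sa (Finset.Icc P (D * P)) (f := fun k => Gk (D * P) k)
    (fun k _ => (Gk_cont _ k).continuousOn) (c := 2) (by norm_num)
    (fun r hr => sum_Gk (hR.spec r hr).1) g₃
  have h3 := sum_le_norm hR.sa (Finset.Icc P (D * P)) (f := fun k => Ek D (D * P) k)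
    (fun k _ => (Ek_cont hD _ k).continuousOn) (c := 2 * (2 * D / P) ^ 2) (by positivity)
    (fun r hr => sum_Ek hD hP (hR.spec r hr).1) χ
  nlinarith

end

theorem t_HCAR : S_STAR → S_HCAR := by
  rintro ⟨C, hC⟩
  refine ⟨1 / √((C : ℝ) + 1), by positivity, 32 * C, ?_⟩
  intro H _ _ _ _ R hR V ρ r0 M m χ ξ g g₃ D' hV hρ hρr hr hm hM hMr hVM hχ hξ hg hg3 hD hχξ hw hVχ heq hsup
  have hK : C * ENNReal.ofReal ((M + r0) ^ 2) ≤ 1 := by
    have h1 : (M + r0) ^ 2 ≤ 1 / ((C : ℝ) + 1) := by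
      have : (M + r0) ^ 2 ≤ (1 / √((C : ℝ) + 1)) ^ 2 := pow_le_pow_left₀ (by linarith) hMr 2
      rwa [div_pow, Real.sq_sqrt (by positivity), one_pow] at this
    rw [← ENNReal.ofReal_coe_nnreal, ← ENNReal.ofReal_mul (by positivity), ← ENNReal.ofReal_one]
    apply ENNReal.ofReal_le_ofReal
    calc (C : ℝ) * (M + r0) ^ 2 ≤ C * (1 / (C + 1)) := by gcongr
      _ ≤ 1 := by
        rw [mul_one_div, div_le_one (by positivity)]
        linarith
  have hsup' : ∀ x, (‖x‖ < ρ ∨ r0 < ‖x‖) → χ x = 0 ∧ g x = 0 ∧ g₃ x = 0 ∧ ∀ i, D' i x = 0 := by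
    intro x hx
    obtain ⟨a1, a2, a3, a4⟩ := hsup x hx
    exact ⟨by rw [hχξ, a1, map_zero], a2, a3, a4⟩
  set K := C * ENNReal.ofReal ((M + r0) ^ 2) with hKdef
  set Y := ∫⁻ x, om2 m x * ENNReal.ofReal (‖g x‖ ^ 2 + ‖g₃ x‖ ^ 2) with hY
  set Z := ∫⁻ x, om2 m x * ENNReal.ofReal (‖χ x‖ ^ 2) with hZdef
  have hZ : Z < ∞ := fin_om hρ (F := fun x => ‖χ x‖ ^ 2)
    (fun x hx => by rw [(hsup' x (Or.inl hx)).1]; simp) (memLp_fin hχ)
  have hN2 : ∀ {w : E3 → H} (A : H →L[ℂ] H), MemLp w 2 → AEMeasurable (fun x => ‖A (w x)‖ ^ 2) volume :=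
    fun A hw => (A.comp_memLp' hw).1.norm.aemeasurable.pow_const 2
  -- for fixed `D`, `P`
  have main : ∀ D P : ℕ, 1 ≤ D → 2 ≤ P → ∫⁻ x, om2 m x * ENNReal.ofReal (‖cfc (th D) R (ξ x)‖ ^ 2) ≤
      8 * (K * (4 * Y + ENNReal.ofReal (4 * (2 * D / P) ^ 2) * Z)) := by
    intro D P hD1 hP
    calc ∫⁻ x, om2 m x * ENNReal.ofReal (‖cfc (th D) R (ξ x)‖ ^ 2)
        ≤ ∫⁻ x, 8 * (om2 m x * ENNReal.ofReal (∑ k ∈ Finset.Icc P (D * P),
            kap (D * P) k * ‖cfc (Gk (D * P) k) R (χ x)‖ ^ 2)) := by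
          refine lintegral_mono fun x => ?_
          have h1 := pt_lower hR hD1 hP (ξ x)
          rw [← hχξ x] at h1
          have h2 : (8 : ℝ≥0∞) = ENNReal.ofReal 8 := by simp
          rw [mul_left_comm, h2, ← ENNReal.ofReal_mul (by norm_num)]
          exact mul_le_mul_right (ENNReal.ofReal_le_ofReal h1) _
      _ = 8 * ∑ k ∈ Finset.Icc P (D * P), ∫⁻ x, om2 m x * ENNReal.ofReal (kap (D * P) k *
            ‖cfc (Gk (D * P) k) R (χ x)‖ ^ 2) := by
          rw [lintegral_const_mul' _ _ (by simp)]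
          rw [sum_int m _ (F := fun k x => kap (D * P) k * ‖cfc (Gk (D * P) k) R (χ x)‖ ^ 2)
            (fun k _ => (hN2 _ hχ).const_mul _)
            (fun k _ x => mul_nonneg (Real.sqrt_nonneg _) (sq_nonneg _))]
      _ = 8 * ∑ k ∈ Finset.Icc P (D * P), ENNReal.ofReal (kap (D * P) k) * ∫⁻ x, om2 m x *
            ENNReal.ofReal (‖cfc (Gk (D * P) k) R (χ x)‖ ^ 2) := by
          congr 1
          refine Finset.sum_congr rfl fun k _ => ?_
          rw [← lintegral_const_mul' _ _ ENNReal.ofReal_ne_top]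
          congr 1
          ext x
          rw [ENNReal.ofReal_mul (show 0 ≤ kap (D * P) k from Real.sqrt_nonneg _)]
          exact mul_left_comm _ _ _
      _ ≤ 8 * ∑ k ∈ Finset.Icc P (D * P), K * ∫⁻ x, om2 m x * ENNReal.ofReal (‖cfc (Hk D (D * P) k) R (g x)‖ ^ 2 +
            2 * ‖cfc (Gk (D * P) k) R (g₃ x)‖ ^ 2 + 2 * ‖cfc (Ek D (D * P) k) R (χ x)‖ ^ 2) := by
          refine mul_le_mul_right (Finset.sum_le_sum fun k hk => ?_) _
          rw [Finset.mem_Icc] at hk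
          exact one_k hC hR hV hρ hρr hr hm hM hK hVM hχ hg hg3 hD hw hVχ heq hsup' hD1 hP hk.1 hk.2
      _ = 8 * (K * ∫⁻ x, om2 m x * ENNReal.ofReal (∑ k ∈ Finset.Icc P (D * P), (‖cfc (Hk D (D * P) k) R (g x)‖ ^ 2 +
            2 * ‖cfc (Gk (D * P) k) R (g₃ x)‖ ^ 2 + 2 * ‖cfc (Ek D (D * P) k) R (χ x)‖ ^ 2))) := by
          rw [← Finset.mul_sum]
          rw [sum_int m _ (F := fun k x => ‖cfc (Hk D (D * P) k) R (g x)‖ ^ 2 +
            2 * ‖cfc (Gk (D * P) k) R (g₃ x)‖ ^ 2 + 2 * ‖cfc (Ek D (D * P) k) R (χ x)‖ ^ 2)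
            (fun k _ => ((hN2 _ hg).add ((hN2 _ hg3).const_mul _)).add ((hN2 _ hχ).const_mul _))
            (fun k _ x => by positivity)]
      _ ≤ 8 * (K * ∫⁻ x, (4 * (om2 m x * ENNReal.ofReal (‖g x‖ ^ 2 + ‖g₃ x‖ ^ 2)) +
            ENNReal.ofReal (4 * (2 * D / P) ^ 2) * (om2 m x * ENNReal.ofReal (‖χ x‖ ^ 2)))) := by
          refine mul_le_mul_right (mul_le_mul_right (lintegral_mono fun x => ?_) _) _
          have h1 := pt_upper hR hD1 hP (g x) (g₃ x) (χ x)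
          have h2 : (4 : ℝ≥0∞) = ENNReal.ofReal 4 := by simp
          rw [mul_left_comm, mul_left_comm (ENNReal.ofReal (4 * (2 * (D : ℝ) / P) ^ 2)), ← mul_add, h2,
            ← ENNReal.ofReal_mul (by norm_num), ← ENNReal.ofReal_mul (by positivity),
            ← ENNReal.ofReal_add (by positivity) (by positivity)]
          exact mul_le_mul_right (ENNReal.ofReal_le_ofReal h1) _
      _ = 8 * (K * (4 * Y + ENNReal.ofReal (4 * (2 * D / P) ^ 2) * Z)) := by
          have m1 : AEMeasurable (fun x => om2 m x * ENNReal.ofReal (‖g x‖ ^ 2 + ‖g₃ x‖ ^ 2)) volume :=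
            (om2_meas m).aemeasurable.mul ((hg.1.norm.aemeasurable.pow_const 2).add
              (hg3.1.norm.aemeasurable.pow_const 2)).ennreal_ofReal
          rw [lintegral_add_left' (m1.const_mul _), lintegral_const_mul' _ _ (by simp),
            lintegral_const_mul' _ _ ENNReal.ofReal_ne_top]
  have hKtop : K ≠ ∞ := ne_top_of_le_ne_top ENNReal.one_ne_top hK
  have lim1 : ∀ D : ℕ, 1 ≤ D → ∫⁻ x, om2 m x * ENNReal.ofReal (‖cfc (th D) R (ξ x)‖ ^ 2) ≤
      8 * (K * (4 * Y)) := by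
    intro D hD1
    have ht : Tendsto (fun P : ℕ => 8 * (K * (4 * Y + ENNReal.ofReal (4 * (2 * D / P) ^ 2) * Z))) atTop
        (𝓝 (8 * (K * (4 * Y + 0 * Z)))) := by
      refine ENNReal.Tendsto.const_mul ?_ (Or.inr (by simp))
      refine ENNReal.Tendsto.const_mul ?_ (Or.inr hKtop)
      refine tendsto_const_nhds.add ?_
      refine ENNReal.Tendsto.mul_const ?_ (Or.inr hZ.ne)
      have h1 : Tendsto (fun P : ℕ => 4 * (2 * (D : ℝ) / P) ^ 2) atTop (𝓝 (4 * (0 : ℝ) ^ 2)) := by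
        refine Tendsto.const_mul _ (Tendsto.pow ?_ 2)
        exact tendsto_const_div_atTop_nhds_zero_nat _
      have h2 := ENNReal.tendsto_ofReal h1
      simpa using h2
    rw [zero_mul, add_zero] at ht
    refine ge_of_tendsto ht ?_
    filter_upwards [eventually_ge_atTop 2] with P hP
    exact main D P hD1 hP
  -- Fatou
  have hF : ∫⁻ x, om2 m x * ENNReal.ofReal (‖ξ x‖ ^ 2) ≤
      liminf (fun D : ℕ => ∫⁻ x, om2 m x * ENNReal.ofReal (‖cfc (th D) R (ξ x)‖ ^ 2)) atTop := by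
    have h1 : ∀ x, om2 m x * ENNReal.ofReal (‖ξ x‖ ^ 2) =
        liminf (fun D : ℕ => om2 m x * ENNReal.ofReal (‖cfc (th D) R (ξ x)‖ ^ 2)) atTop := by
      intro x
      symm
      apply Tendsto.liminf_eq
      refine ENNReal.Tendsto.const_mul ?_ (Or.inr (by unfold om2; exact ENNReal.ofReal_ne_top))
      exact ENNReal.tendsto_ofReal ((th_tendsto hR (ξ x)).norm.pow 2)
    simp_rw [h1]
    exact lintegral_liminf_le' fun D => (om2_meas m).aemeasurable.mul (hN2 _ hξ).ennreal_ofReal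
  have hfin : liminf (fun D : ℕ => ∫⁻ x, om2 m x * ENNReal.ofReal (‖cfc (th D) R (ξ x)‖ ^ 2)) atTop ≤
      8 * (K * (4 * Y)) := by
    refine liminf_le_of_frequently_le' ?_
    refine Eventually.frequently ?_
    filter_upwards [eventually_ge_atTop 1] with D hD1
    exact lim1 D hD1
  refine (hF.trans hfin).trans (le_of_eq ?_)
  rw [hKdef]
  push_cast
  ring

end Pool.Agent.H287.HK
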