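import Pool.Agent.H287.HK.Scal

/-! HK project, task HCAR: the Carleman inequality for Hilbert space valued functions. -/

set_option autoImplicit false

noncomputable section

namespace Pool.Agent.H287.HK

open MeasureTheory Filter Topology Set
open scoped ENNReal NNReal InnerProductSpace
open Pool.Agent.H998.HK

lemma om2_meas (m : ℕ) : Measurable (om2 m) := by
  unfold om2
  exact (measurable_norm.pow_const _).ennreal_ofReal

lemma om2_le {m : ℕ} {ρ : ℝ} (hρ : 0 < ρ) {x : E3} (hx : ρ ≤ ‖x‖) :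
    om2 m x ≤ ENNReal.ofReal (ρ ^ (-(2 * (m : ℝ) + 1 / 2))) := by
  unfold om2
  apply ENNReal.ofReal_le_ofReal
  exact Real.rpow_le_rpow_of_nonpos hρ hx (by
    have : (0 : ℝ) ≤ m := Nat.cast_nonneg _
    linarith)

lemma sum_int (m : ℕ) (s : Finset ℕ) {F : ℕ → E3 → ℝ} (hF : ∀ k ∈ s, AEMeasurable (F k))
    (h0 : ∀ k ∈ s, ∀ x, 0 ≤ F k x) : ∑ k ∈ s, ∫⁻ x, om2 m x * ENNReal.ofReal (F k x) =
      ∫⁻ x, om2 m x * ENNReal.ofReal (∑ k ∈ s, F k x) := by
  rw [← lintegral_finsetSum']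
  · congr 1
    ext x
    rw [ENNReal.ofReal_sum_of_nonneg fun k hk => h0 k hk x, Finset.mul_sum]
  · intro k hk
    exact (om2_meas m).aemeasurable.mul (hF k hk).ennreal_ofReal

section
variable {H : Type} [NormedAddCommGroup H] [InnerProductSpace ℂ H] [CompleteSpace H]

/-- weighted integrals of functions vanishing near `0` are finite -/
lemma fin_om {m : ℕ} {ρ : ℝ} (hρ : 0 < ρ) {F : E3 → ℝ} (h0 : ∀ x, ‖x‖ < ρ → F x = 0)
    (hF : ∫⁻ x, ENNReal.ofReal (F x) < ∞) : ∫⁻ x, om2 m x * ENNReal.ofReal (F x) < ∞ := by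
  have h1 : ∫⁻ x, om2 m x * ENNReal.ofReal (F x) ≤
      ∫⁻ x, ENNReal.ofReal (ρ ^ (-(2 * (m : ℝ) + 1 / 2))) * ENNReal.ofReal (F x) := by
    refine lintegral_mono fun x => ?_
    by_cases hx : ‖x‖ < ρ
    · rw [h0 x hx]; simp
    · exact mul_le_mul_left (om2_le hρ (not_lt.1 hx)) _
  refine lt_of_le_of_lt h1 ?_
  rw [lintegral_const_mul' _ _ ENNReal.ofReal_ne_top]
  exact ENNReal.mul_lt_top ENNReal.ofReal_lt_top hF

lemma memLp_fin {w : E3 → H} (hw : MemLp w 2) : ∫⁻ x, ENNReal.ofReal (‖w x‖ ^ 2) < ∞ := by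
  have h1 := (memLp_two_iff_integrable_sq_norm hw.1).1 hw
  have h2 := h1.2
  rw [HasFiniteIntegral] at h2
  refine lt_of_le_of_lt (lintegral_mono fun x => ?_) h2
  show _ ≤ ‖‖w x‖ ^ 2‖ₑ
  rw [← ofReal_norm, Real.norm_eq_abs, abs_of_nonneg (by positivity)]

/-- convergence of `θ_D(R)` -/
lemma th_tendsto {R : H →L[ℂ] H} (hR : GoodR R) (v : H) :
    Tendsto (fun D : ℕ => cfc (th D) R v) atTop (𝓝 v) := by
  have hc : ∀ D : ℕ, ∀ w : H, ‖cfc (th D) R w‖ ≤ ‖w‖ := by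
    intro D w
    have := sum_le_norm hR.sa ({()} : Finset Unit) (f := fun _ => th D)
      (fun _ _ => (th_cont D).continuousOn) (c := 1) zero_le_one (by
        intro r _
        rw [Finset.sum_singleton]
        exact pow_le_one₀ (th_nonneg _ _) (th_le_one _ _)) w
    rw [Finset.sum_singleton, one_mul] at this
    exact (pow_le_pow_iff_left₀ (norm_nonneg _) (norm_nonneg _) two_ne_zero).1 this
  have hd : ∀ D : ℕ, 1 ≤ D → ∀ z : H, ‖cfc (th D) R (R z) - R z‖ ≤ 3 / D * ‖z‖ := by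
    intro D hD z
    have hD' : (0 : ℝ) < D := by exact_mod_cast hD
    have e1 : cfc (th D) R (R z) - R z = cfc (fun r => th D r * r - r) R z := by
      have e2 : cfc (th D) R (R z) = cfc (fun r => th D r * r) R z := by
        rw [← cfc_comp_apply (th_cont D).continuousOn (continuousOn_id' _), cfc_id_apply hR.sa]
      have e3 : cfc (fun r => th D r * r - r) R = cfc (fun r => th D r * r) R - cfc (fun r : ℝ => r) R :=
        cfc_sub _ _ R (by have := (th_cont D); fun_prop) (by fun_prop)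
      rw [e2, e3, sub_apply, cfc_id_apply hR.sa]
    rw [e1]
    have := sum_le_norm hR.sa ({()} : Finset Unit) (f := fun _ r => th D r * r - r)
      (fun _ _ => by have := (th_cont D); fun_prop) (c := (3 / D) ^ 2) (sq_nonneg _) (by
        intro r hr
        rw [Finset.sum_singleton]
        obtain ⟨h1, h2⟩ := hR.spec r hr
        rw [← sq_abs]
        refine pow_le_pow_left₀ (abs_nonneg _) ?_ 2
        by_cases h3 : r ≤ 3 / D
        · have e4 : th D r * r - r = -((1 - th D r) * r) := by ring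
          rw [e4, abs_neg, abs_of_nonneg (mul_nonneg (sub_nonneg.2 (th_le_one _ _)) h1)]
          calc (1 - th D r) * r ≤ 1 * r := mul_le_mul_of_nonneg_right (by linarith [th_nonneg D r]) h1
            _ ≤ _ := by rw [one_mul]; exact h3
        · have h4 : th D r = 1 := by
            unfold th
            apply min_eq_left
            refine le_trans ?_ (le_max_right _ _)
            rw [not_le, div_lt_iff₀ hD'] at h3
            linarith
          rw [h4, one_mul, sub_self, abs_zero]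
          positivity) z
    rw [Finset.sum_singleton, ← mul_pow] at this
    exact (pow_le_pow_iff_left₀ (norm_nonneg _) (by positivity) two_ne_zero).1 this
  rw [Metric.tendsto_atTop]
  intro ε hε
  obtain ⟨z, hz⟩ := (dense_range hR.sa hR.inj).exists_dist_lt v (show 0 < ε / 3 by positivity)
  rw [dist_eq_norm] at hz
  obtain ⟨n, hn⟩ := exists_nat_gt (9 * ‖z‖ / ε)
  refine ⟨n + 1, fun D hDn => ?_⟩
  have hD : 1 ≤ D := by omega
  have hD' : (0 : ℝ) < D := by exact_mod_cast hD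
  have hnD : (n : ℝ) < D := by
    have : n < D := by omega
    exact_mod_cast this
  have h1 : 3 / D * ‖z‖ < ε / 3 := by
    have h2 := hn.trans hnD
    rw [div_lt_iff₀ hε] at h2
    rw [div_mul_eq_mul_div, div_lt_div_iff₀ hD' (by norm_num)]
    nlinarith
  rw [dist_eq_norm]
  have e1 : cfc (th D) R v - v = cfc (th D) R (v - R z) + (cfc (th D) R (R z) - R z) - (v - R z) := by
    rw [map_sub]; abel
  rw [e1]
  calc ‖cfc (th D) R (v - R z) + (cfc (th D) R (R z) - R z) - (v - R z)‖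
      ≤ ‖cfc (th D) R (v - R z) + (cfc (th D) R (R z) - R z)‖ + ‖v - R z‖ := norm_sub_le _ _
    _ ≤ ‖cfc (th D) R (v - R z)‖ + ‖cfc (th D) R (R z) - R z‖ + ‖v - R z‖ := by
        gcongr
        exact norm_add_le _ _
    _ ≤ ‖v - R z‖ + 3 / D * ‖z‖ + ‖v - R z‖ := by
        gcongr
        · exact hc D _
        · exact hd D hD z
    _ < ε := by linarith

/-- the equation for `G_k(R) χ` -/
lemma eqk {R : H →L[ℂ] H} (hR : GoodR R) {V : E3 → ℝ} {χ g g₃ : E3 → H} {D' : Fin 3 → E3 → H}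
    (hint : Integrable (fun x => V x • χ x)) (hχ : MemLp χ 2) (hg : MemLp g 2) (hg3 : MemLp g₃ 2)
    (hD : ∀ i, MemLp (D' i) 2) (heq : HEq R V χ D' g g₃)
    {D P k : ℕ} (hD1 : 1 ≤ D) (hP : 2 ≤ P) (hk : P ≤ k) {φ : E3 → ℝ} (hφ : Test φ) :
    ∫ x, (∑ i, pd i φ x • cfc (Gk (D * P) k) R (D' i x) + (kap (D * P) k ^ 2 * φ x) • cfc (Gk (D * P) k) R (χ x)) =
      ∫ x, (φ x • V x • cfc (Gk (D * P) k) R (χ x) + (√(kap (D * P) k) * φ x) • cfc (Hk D (D * P) k) R (g x) +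
        φ x • (cfc (Gk (D * P) k) R (g₃ x) - cfc (Ek D (D * P) k) R (χ x))) := by
  set N : ℕ := D * P with hN
  set A : H →L[ℂ] H := cfc (Qk D N k) R with hA
  have cQ := (Qk_cont hD1 N k).continuousOn (s := spectrum ℝ R)
  have cG := (Gk_cont N k).continuousOn (s := spectrum ℝ R)
  have cE := (Ek_cont hD1 N k).continuousOn (s := spectrum ℝ R)
  have cH := (Hk_cont hD1 N k).continuousOn (s := spectrum ℝ R)
  have hκ : 0 < kap N k := by
    apply Real.sqrt_pos.2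
    have h1 : (0 : ℝ) < N := by
      have : 0 < N := by rw [hN]; positivity
      exact_mod_cast this
    have h2 : (0 : ℝ) < k := by
      have : 0 < k := by omega
      exact_mod_cast this
    positivity
  -- `A R = G`
  have hAR : ∀ v, A (R v) = cfc (Gk N k) R v := by
    intro v
    have e1 : (Gk N k) = fun r => Qk D N k r * r := by
      ext r
      exact (r_Qk hD1 hP hk r).symm
    rw [e1, hA, ← cfc_comp_apply cQ (continuousOn_id' _), cfc_id_apply hR.sa]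
  -- `A R^{3/4} = √κ H`
  have hA34 : ∀ v, A (Rpow R (3 / 4) v) = √(kap N k) • cfc (Hk D N k) R v := by
    intro v
    have hs : √(kap N k) ≠ 0 := (Real.sqrt_pos.2 hκ).ne'
    have c34 : ContinuousOn (fun r : ℝ => r ^ (3 / 4 : ℝ)) (spectrum ℝ R) :=
      (Real.continuous_rpow_const (by norm_num)).continuousOn
    have e1 : (fun r => Qk D N k r * r ^ (3 / 4 : ℝ)) = fun r => √(kap N k) * Hk D N k r := by
      ext r
      unfold Hk
      field_simp
    unfold Rpow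
    rw [hA, cfc_comp_apply cQ c34, e1, cfc_const_mul _ _ R cH, smul_apply]
  -- `A χ = κ² G χ + E χ`
  have hAχ : ∀ v, A v = kap N k ^ 2 • cfc (Gk N k) R v + cfc (Ek D N k) R v := by
    intro v
    have e1 : cfc (Ek D N k) R = A - kap N k ^ 2 • cfc (Gk N k) R := by
      have e2 : Ek D N k = fun r => Qk D N k r - kap N k ^ 2 * Gk N k r := rfl
      have cG' : ContinuousOn (fun r => kap N k ^ 2 * Gk N k r) (spectrum ℝ R) := continuousOn_const.mul cG
      rw [e2, cfc_sub (Qk D N k) (fun r => kap N k ^ 2 * Gk N k r) R cQ cG', cfc_const_mul _ _ R cG]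
    rw [e1, sub_apply, smul_apply]
    abel
  have hEm : MemLp (fun x => cfc (Ek D N k) R (χ x)) 2 := (cfc (Ek D N k) R).comp_memLp' hχ
  have iE : Integrable (fun x => φ x • cfc (Ek D N k) R (χ x)) := int_smul hφ.1.continuous hφ.2 hEm
  have i1 : Integrable (fun x => ∑ i, pd i φ x • R (D' i x) + φ x • χ x) := by
    apply Integrable.add
    · apply integrable_finsetSum
      intro i _
      exact int_smul (test_pd hφ i).1 (test_pd hφ i).2 (R.comp_memLp' (hD i))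
    · exact int_smul hφ.1.continuous hφ.2 hχ
  have i2 : Integrable (fun x => φ x • (R (V x • χ x) + Rpow R (3 / 4) (g x) + R (g₃ x))) := by
    simp_rw [smul_add]
    apply Integrable.add
    · apply Integrable.add
      · exact int_smul' hφ.1.continuous hφ.2 (R.integrable_comp hint)
      · exact int_smul hφ.1.continuous hφ.2 ((Rpow R (3 / 4)).comp_memLp' hg)
    · exact int_smul hφ.1.continuous hφ.2 (R.comp_memLp' hg3)
  have h1 := congrArg A (heq φ hφ)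
  rw [← A.integral_comp_comm i1, ← A.integral_comp_comm i2] at h1
  have i3 : Integrable (fun x => A (∑ i, pd i φ x • R (D' i x) + φ x • χ x)) := A.integrable_comp i1
  have i4 : Integrable (fun x => A (φ x • (R (V x • χ x) + Rpow R (3 / 4) (g x) + R (g₃ x)))) := A.integrable_comp i2
  have h2 := congrArg (fun w => w - ∫ x, φ x • cfc (Ek D N k) R (χ x)) h1
  have e3 := integral_sub i3 iE
  have e4 := integral_sub i4 iE
  have h2 := (e3.trans h2).trans e4.symm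
  refine Eq.trans (Eq.trans ?_ h2) ?_
  · congr 1
    ext x
    rw [map_add, map_sum, A.map_smul_of_tower (φ x), hAχ (χ x)]
    simp_rw [A.map_smul_of_tower, hAR]
    rw [smul_add, smul_smul, mul_comm (φ x)]
    abel
  · congr 1
    ext x
    rw [A.map_smul_of_tower (φ x), map_add, map_add, hAR, hAR, hA34, ContinuousLinearMap.map_smul_of_tower]
    simp only [smul_add, smul_sub, smul_smul]
    rw [mul_comm (√(kap N k)) (φ x)]
    abel

/-- the estimate of one piece -/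
lemma one_k [TopologicalSpace.SeparableSpace H] {C : ℝ≥0}
    (hC : ∀ (V : E3 → ℝ) (κ ρ r0 M : ℝ) (m : ℕ) (u g₁ g₂ g₃ : E3 → ℝ)
      (D : Fin 3 → E3 → ℝ), Measurable V → 1 ≤ κ → 0 < ρ → ρ < r0 → r0 ≤ 1 → 1 ≤ m → 0 ≤ M →
      (∫⁻ x in Metric.closedBall (0 : E3) r0, ENNReal.ofReal (|V x| ^ (3 / 2 : ℝ))) ^ (2 / 3 : ℝ) ≤
        ENNReal.ofReal M →
      MemLp u 2 → (∀ i, MemLp (D i) 2) → MemLp g₁ 2 → MemLp g₂ 2 → MemLp g₃ 2 → WeakGrad u D →
      WeakEq κ u D (fun x => √|V x| * g₁ x + √κ * g₂ x + g₃ x) →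
      (∀ x, (‖x‖ < ρ ∨ r0 < ‖x‖) → u x = 0 ∧ g₁ x = 0 ∧ g₂ x = 0 ∧ g₃ x = 0 ∧ ∀ i, D i x = 0) →
      (∫⁻ x, om2 m x * ENNReal.ofReal (|V x| * u x ^ 2)) + ENNReal.ofReal κ *
          ∫⁻ x, om2 m x * ENNReal.ofReal (u x ^ 2) ≤
        C * ENNReal.ofReal ((M + r0) ^ 2) *
          ∫⁻ x, om2 m x * ENNReal.ofReal (g₁ x ^ 2 + g₂ x ^ 2 + g₃ x ^ 2))
    {R : H →L[ℂ] H} (hR : GoodR R) {V : E3 → ℝ} {ρ r0 M : ℝ} {m : ℕ} {χ g g₃ : E3 → H} {D' : Fin 3 → E3 → H}
    (hV : Measurable V) (hρ : 0 < ρ) (hρr : ρ < r0) (hr : r0 ≤ 1) (hm : 1 ≤ m) (hM : 0 ≤ M)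
    (hK : C * ENNReal.ofReal ((M + r0) ^ 2) ≤ 1)
    (hVM : (∫⁻ x in Metric.closedBall (0 : E3) r0, ENNReal.ofReal (|V x| ^ (3 / 2 : ℝ))) ^ (2 / 3 : ℝ) ≤
      ENNReal.ofReal M) (hχ : MemLp χ 2) (hg : MemLp g 2) (hg3 : MemLp g₃ 2) (hD : ∀ i, MemLp (D' i) 2)
    (hw : WeakGrad χ D') (hVχ : ∫⁻ x, ENNReal.ofReal (|V x| * ‖χ x‖ ^ 2) < ∞) (heq : HEq R V χ D' g g₃)
    (hsup : ∀ x, (‖x‖ < ρ ∨ r0 < ‖x‖) → χ x = 0 ∧ g x = 0 ∧ g₃ x = 0 ∧ ∀ i, D' i x = 0)
    {D P k : ℕ} (hD1 : 1 ≤ D) (hP : 2 ≤ P) (hk : P ≤ k) (hk2 : k ≤ D * P) :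
    ENNReal.ofReal (kap (D * P) k) * ∫⁻ x, om2 m x * ENNReal.ofReal (‖cfc (Gk (D * P) k) R (χ x)‖ ^ 2) ≤
      C * ENNReal.ofReal ((M + r0) ^ 2) * ∫⁻ x, om2 m x * ENNReal.ofReal (‖cfc (Hk D (D * P) k) R (g x)‖ ^ 2 +
        2 * ‖cfc (Gk (D * P) k) R (g₃ x)‖ ^ 2 + 2 * ‖cfc (Ek D (D * P) k) R (χ x)‖ ^ 2) := by
  have hint := int_Vu hV hVM hχ (fun x hx => (hsup x (Or.inr hx)).1) hVχ
  set N : ℕ := D * P with hN
  set κ := kap N k with hκdef
  have hκ1 : 1 ≤ κ := by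
    rw [hκdef, kap, Real.one_le_sqrt]
    have h2 : (0 : ℝ) < k := by
      have : 0 < k := by omega
      exact_mod_cast this
    rw [one_le_div h2]
    exact_mod_cast hk2
  set G : H →L[ℂ] H := cfc (Gk N k) R with hG
  set E : H →L[ℂ] H := cfc (Ek D N k) R with hE
  set T : H →L[ℂ] H := cfc (Hk D N k) R with hT
  have hVG : ∫⁻ x, ENNReal.ofReal (|V x| * ‖G (χ x)‖ ^ 2) < ∞ := by
    have h1 : ∫⁻ x, ENNReal.ofReal (|V x| * ‖G (χ x)‖ ^ 2) ≤
        ∫⁻ x, ENNReal.ofReal (‖G‖ ^ 2) * ENNReal.ofReal (|V x| * ‖χ x‖ ^ 2) := by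
      refine lintegral_mono fun x => ?_
      rw [← ENNReal.ofReal_mul (by positivity)]
      apply ENNReal.ofReal_le_ofReal
      have h2 : ‖G (χ x)‖ ^ 2 ≤ ‖G‖ ^ 2 * ‖χ x‖ ^ 2 := by
        rw [← mul_pow]
        exact pow_le_pow_left₀ (norm_nonneg _) (G.le_opNorm _) 2
      calc |V x| * ‖G (χ x)‖ ^ 2 ≤ |V x| * (‖G‖ ^ 2 * ‖χ x‖ ^ 2) := mul_le_mul_of_nonneg_left h2 (abs_nonneg _)
        _ = _ := by ring
    refine lt_of_le_of_lt h1 ?_
    rw [lintegral_const_mul' _ _ ENNReal.ofReal_ne_top]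
    exact ENNReal.mul_lt_top ENNReal.ofReal_lt_top hVχ
  have hv := vstar hC (V := V) (κ := κ) (u := fun x => G (χ x)) (g₂ := fun x => T (g x))
    (g₃ := fun x => G (g₃ x) - E (χ x)) (D := fun i x => G (D' i x)) hV hκ1 hρ hρr hr hm hM hVM
    (G.comp_memLp' hχ) (fun i => G.comp_memLp' (hD i)) (T.comp_memLp' hg)
    ((G.comp_memLp' hg3).sub (E.comp_memLp' hχ))
    (by
      intro i φ hφ
      have h1 := congrArg G (hw i φ hφ)
      obtain ⟨c1, c2⟩ := test_pd hφ i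
      rw [map_neg, ← G.integral_comp_comm (int_smul c1 c2 hχ),
        ← G.integral_comp_comm (int_smul hφ.1.continuous hφ.2 (hD i))] at h1
      simp_rw [ContinuousLinearMap.map_smul_of_tower] at h1
      exact h1)
    hVG (fun φ hφ => eqk hR hint hχ hg hg3 hD heq hD1 hP hk hφ)
    (fun x hx => by
      obtain ⟨a1, a2, a3, a4⟩ := hsup x hx
      refine ⟨by simp [a1], by simp [a2], by simp [a3, a1], fun i => by simp [a4 i]⟩)
  have ha : ∫⁻ x, om2 m x * ENNReal.ofReal (|V x| * ‖G (χ x)‖ ^ 2) < ∞ :=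
    fin_om hρ (fun x hx => by rw [(hsup x (Or.inl hx)).1]; simp) hVG
  set a := ∫⁻ x, om2 m x * ENNReal.ofReal (|V x| * ‖G (χ x)‖ ^ 2) with hadef
  set b := ENNReal.ofReal κ * ∫⁻ x, om2 m x * ENNReal.ofReal (‖G (χ x)‖ ^ 2) with hbdef
  set c := ∫⁻ x, om2 m x * ENNReal.ofReal (‖T (g x)‖ ^ 2 + 2 * ‖G (g₃ x)‖ ^ 2 + 2 * ‖E (χ x)‖ ^ 2) with hcdef
  set K := C * ENNReal.ofReal ((M + r0) ^ 2) with hKdef
  have hVa : Measurable (fun x => |V x|) := continuous_abs.measurable.comp hV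
  have h5 : ∫⁻ x, om2 m x * ENNReal.ofReal (|V x| * ‖G (χ x)‖ ^ 2 + ‖T (g x)‖ ^ 2 + ‖G (g₃ x) - E (χ x)‖ ^ 2) ≤ a + c := by
    have m1 : AEMeasurable (fun x => om2 m x * ENNReal.ofReal (|V x| * ‖G (χ x)‖ ^ 2)) volume :=
      (om2_meas m).aemeasurable.mul (hVa.aemeasurable.mul
        ((G.comp_memLp' hχ).1.norm.aemeasurable.pow_const 2)).ennreal_ofReal
    rw [hadef, hcdef, ← lintegral_add_left' m1]
    refine lintegral_mono fun x => ?_
    rw [← mul_add, ← ENNReal.ofReal_add (by positivity) (by positivity)]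
    refine mul_le_mul_right (ENNReal.ofReal_le_ofReal ?_) _
    have h6 : ‖G (g₃ x) - E (χ x)‖ ^ 2 ≤ 2 * ‖G (g₃ x)‖ ^ 2 + 2 * ‖E (χ x)‖ ^ 2 := by
      have := norm_sub_le (G (g₃ x)) (E (χ x))
      have h7 : ‖G (g₃ x) - E (χ x)‖ ^ 2 ≤ (‖G (g₃ x)‖ + ‖E (χ x)‖) ^ 2 := pow_le_pow_left₀ (norm_nonneg _) this 2
      nlinarith [sq_nonneg (‖G (g₃ x)‖ - ‖E (χ x)‖)]
    linarith
  have h6 : a + b ≤ a + K * c := by
    calc a + b ≤ K * ∫⁻ x, om2 m x * ENNReal.ofReal (|V x| * ‖G (χ x)‖ ^ 2 + ‖T (g x)‖ ^ 2 + ‖G (g₃ x) - E (χ x)‖ ^ 2) := hv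
      _ ≤ K * (a + c) := mul_le_mul_right h5 _
      _ = K * a + K * c := mul_add _ _ _
      _ ≤ 1 * a + K * c := add_le_add_left (mul_le_mul_left hK _) _
      _ = a + K * c := by rw [one_mul]
  exact (ENNReal.add_le_add_iff_left ha.ne).1 h6

end

end Pool.Agent.H287.HK
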