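import Pool.Agent.H287.HK.Vec

/-! HK project, task HCAR: the scalar functions used for the spectral decomposition. -/

set_option autoImplicit false

noncomputable section

namespace Pool.Agent.H287.HK

open MeasureTheory Filter Topology Set
open scoped ENNReal NNReal InnerProductSpace
open Pool.Agent.H998.HK

def Gk (N k : ℕ) (r : ℝ) : ℝ := max 0 (1 - |(N : ℝ) * r - k|)
def Qk (D N k : ℕ) (r : ℝ) : ℝ := Gk N k r / max r (1 / (2 * (D : ℝ)))
def kap (N k : ℕ) : ℝ := √((N : ℝ) / k)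
def Hk (D N k : ℕ) (r : ℝ) : ℝ := Qk D N k r * r ^ (3 / 4 : ℝ) / √(kap N k)
def Ek (D N k : ℕ) (r : ℝ) : ℝ := Qk D N k r - kap N k ^ 2 * Gk N k r
def th (D : ℕ) (r : ℝ) : ℝ := min 1 (max 0 ((D : ℝ) * r - 2))

lemma Gk_nonneg (N k : ℕ) (r : ℝ) : 0 ≤ Gk N k r := le_max_left _ _
lemma Gk_le_one (N k : ℕ) (r : ℝ) : Gk N k r ≤ 1 := by
  unfold Gk
  exact max_le zero_le_one (by linarith [abs_nonneg ((N : ℝ) * r - k)])
lemma Gk_supp {N k : ℕ} {r : ℝ} (h : ¬ |(N : ℝ) * r - k| < 1) : Gk N k r = 0 := by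
  unfold Gk
  exact max_eq_left (by linarith)

lemma Gk_cont (N k : ℕ) : Continuous (Gk N k) := by
  unfold Gk
  fun_prop

lemma Qk_cont {D : ℕ} (hD : 1 ≤ D) (N k : ℕ) : Continuous (Qk D N k) := by
  unfold Qk
  refine (Gk_cont N k).div (continuous_id.max continuous_const) fun r => ?_
  have : (0 : ℝ) < 1 / (2 * (D : ℝ)) := by
    have : (0 : ℝ) < D := by exact_mod_cast hD
    positivity
  exact (lt_of_lt_of_le this (le_max_right _ _)).ne'

lemma Hk_cont {D : ℕ} (hD : 1 ≤ D) (N k : ℕ) : Continuous (Hk D N k) := by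
  unfold Hk
  exact ((Qk_cont hD N k).mul (Real.continuous_rpow_const (by norm_num))).div_const _

lemma Ek_cont {D : ℕ} (hD : 1 ≤ D) (N k : ℕ) : Continuous (Ek D N k) := by
  unfold Ek
  exact (Qk_cont hD N k).sub (continuous_const.mul (Gk_cont N k))

lemma th_cont (D : ℕ) : Continuous (th D) := by
  unfold th
  fun_prop

lemma count {y : ℝ} (hy : 0 ≤ y) (s : Finset ℕ) {F : ℕ → ℝ} {c : ℝ} (hc : 0 ≤ c)
    (h1 : ∀ k ∈ s, |y - k| < 1 → F k ≤ c) (h2 : ∀ k ∈ s, ¬ |y - k| < 1 → F k ≤ 0) :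
    ∑ k ∈ s, F k ≤ 2 * c := by
  have h3 : ∑ k ∈ s, F k ≤ ∑ k ∈ s, if |y - (k : ℝ)| < 1 then c else 0 := by
    refine Finset.sum_le_sum fun k hk => ?_
    split_ifs with h
    · exact h1 k hk h
    · exact h2 k hk h
  refine h3.trans ?_
  rw [← Finset.sum_filter, Finset.sum_const, nsmul_eq_mul]
  have h4 : (s.filter fun k : ℕ => |y - (k : ℝ)| < 1) ⊆ {⌊y⌋₊, ⌊y⌋₊ + 1} := by
    intro k hk
    rw [Finset.mem_filter, abs_lt] at hk
    obtain ⟨-, h5, h6⟩ := hk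
    have h7 := Nat.floor_le hy
    have h8 := Nat.lt_floor_add_one y
    rw [Finset.mem_insert, Finset.mem_singleton]
    have h9 : (k : ℝ) < (⌊y⌋₊ : ℝ) + 2 := by linarith
    have h10 : (⌊y⌋₊ : ℝ) < (k : ℝ) + 1 := by linarith
    have h11 : k < ⌊y⌋₊ + 2 := by exact_mod_cast h9
    have h12 : ⌊y⌋₊ < k + 1 := by exact_mod_cast h10
    omega
  have h5 : ((s.filter fun k : ℕ => |y - (k : ℝ)| < 1).card : ℝ) ≤ 2 := by
    have := (Finset.card_le_card h4).trans Finset.card_le_two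
    exact_mod_cast this
  exact mul_le_mul_of_nonneg_right h5 hc

section
variable {D P k : ℕ} (hD : 1 ≤ D) (hP : 2 ≤ P) (hk : P ≤ k) (hk2 : k ≤ D * P)
include hD hP hk

lemma supp_r {r : ℝ} (h : |((D * P : ℕ) : ℝ) * r - k| < 1) : 1 / (2 * (D : ℝ)) ≤ r := by
  have hD' : (1 : ℝ) ≤ D := by exact_mod_cast hD
  have hP' : (2 : ℝ) ≤ P := by exact_mod_cast hP
  have hk' : (P : ℝ) ≤ k := by exact_mod_cast hk
  rw [abs_lt] at h
  push_cast at h
  rw [div_le_iff₀ (by positivity)]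
  have h1 : (P : ℝ) / 2 ≤ (D : ℝ) * P * r := by linarith [h.1]
  have h2 : (P : ℝ) * (1 / 2) ≤ P * (D * r) := by linarith
  have h3 := le_of_mul_le_mul_left h2 (by linarith)
  linarith

lemma Qk_eq {r : ℝ} (h : |((D * P : ℕ) : ℝ) * r - k| < 1) : Qk D (D * P) k r = Gk (D * P) k r / r := by
  unfold Qk
  rw [max_eq_left (supp_r hD hP hk h)]

lemma r_Qk (r : ℝ) : Qk D (D * P) k r * r = Gk (D * P) k r := by
  by_cases h : |((D * P : ℕ) : ℝ) * r - k| < 1
  · have h1 := supp_r hD hP hk h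
    have h2 : 0 < r := lt_of_lt_of_le (by have : (0 : ℝ) < D := (by exact_mod_cast hD); positivity) h1
    rw [Qk_eq hD hP hk h]
    field_simp
  · unfold Qk
    rw [Gk_supp h]
    simp

lemma Hk_le {r : ℝ} (h : |((D * P : ℕ) : ℝ) * r - k| < 1) : Hk D (D * P) k r ^ 2 ≤ 2 := by
  have h1 := supp_r hD hP hk h
  have hD' : (1 : ℝ) ≤ D := by exact_mod_cast hD
  have hP' : (2 : ℝ) ≤ P := by exact_mod_cast hP
  have hk' : (P : ℝ) ≤ k := by exact_mod_cast hk
  have h2 : 0 < r := lt_of_lt_of_le (by have : (0 : ℝ) < D := (by exact_mod_cast hD); positivity) h1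
  set N : ℕ := D * P with hN
  have hN0 : (0 : ℝ) < N := by rw [hN]; push_cast; positivity
  have hk0 : (0 : ℝ) < k := by linarith
  have hκ : 0 < kap N k := Real.sqrt_pos.2 (by positivity)
  unfold Hk
  rw [Qk_eq hD hP hk h, div_pow, Real.sq_sqrt hκ.le, mul_pow, div_pow]
  have e1 : (r ^ (3 / 4 : ℝ)) ^ 2 = r * √r := by
    rw [← Real.rpow_natCast, ← Real.rpow_mul h2.le, Real.sqrt_eq_rpow]
    nth_rewrite 2 [← Real.rpow_one r]
    rw [← Real.rpow_add h2]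
    norm_num
  rw [e1]
  have hG := Gk_le_one N k r
  have hG0 := Gk_nonneg N k r
  have hG2 : Gk N k r ^ 2 ≤ 1 := pow_le_one₀ hG0 hG
  -- need 1 / (√r κ) ≤ 2
  have h3 : 1 ≤ 2 * (√r * kap N k) := by
    have h4 : (1 / 2 : ℝ) ≤ √r * kap N k := by
      unfold kap
      rw [← Real.sqrt_mul h2.le]
      apply Real.le_sqrt_of_sq_le
      rw [mul_div_assoc', le_div_iff₀ hk0]
      rw [abs_lt] at h
      nlinarith [h.1]
    linarith
  rw [div_le_iff₀ hκ, div_mul_eq_mul_div, div_le_iff₀ (by positivity)]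
  have hs : √r * √r = r := Real.mul_self_sqrt h2.le
  have hs0 : 0 < √r := Real.sqrt_pos.2 h2
  calc Gk N k r ^ 2 * (r * √r) ≤ 1 * (r * √r) := mul_le_mul_of_nonneg_right hG2 (by positivity)
    _ = r * √r * 1 := by ring
    _ ≤ r * √r * (2 * (√r * kap N k)) := mul_le_mul_of_nonneg_left h3 (by positivity)
    _ = 2 * kap N k * (r * (√r * √r)) := by ring
    _ = 2 * kap N k * r ^ 2 := by rw [hs]; ring

lemma Ek_le {r : ℝ} (h : |((D * P : ℕ) : ℝ) * r - k| < 1) : Ek D (D * P) k r ^ 2 ≤ (2 * D / P) ^ 2 := by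
  have h1 := supp_r hD hP hk h
  have hD' : (1 : ℝ) ≤ D := by exact_mod_cast hD
  have hP' : (2 : ℝ) ≤ P := by exact_mod_cast hP
  have hk' : (P : ℝ) ≤ k := by exact_mod_cast hk
  have h2 : 0 < r := lt_of_lt_of_le (by have : (0 : ℝ) < D := (by exact_mod_cast hD); positivity) h1
  set N : ℕ := D * P with hN
  have hN0 : (0 : ℝ) < N := by rw [hN]; push_cast; positivity
  have hk0 : (0 : ℝ) < k := by linarith
  have hκ : kap N k ^ 2 = (N : ℝ) / k := Real.sq_sqrt (by positivity)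
  unfold Ek
  rw [Qk_eq hD hP hk h, hκ]
  have hG := Gk_le_one N k r
  have hG0 := Gk_nonneg N k r
  rw [← sq_abs]
  refine pow_le_pow_left₀ (abs_nonneg _) ?_ 2
  have e1 : Gk N k r / r - (N : ℝ) / k * Gk N k r = Gk N k r * ((k - N * r) / (r * k)) := by
    field_simp
  rw [e1, abs_mul, abs_of_nonneg hG0, abs_div, abs_of_pos (show 0 < r * k by positivity), abs_sub_comm]
  have e2 : |(N : ℝ) * r - k| / (r * k) ≤ 2 * D / P := by
    rw [div_le_div_iff₀ (by positivity) (by linarith)]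
    have h3 : (P : ℝ) ≤ 2 * D * (r * k) := by
      have h4 : 1 ≤ 2 * (D : ℝ) * r := by
        rw [div_le_iff₀ (by positivity)] at h1
        linarith
      nlinarith
    calc |(N : ℝ) * r - k| * P ≤ 1 * P := mul_le_mul_of_nonneg_right h.le (by linarith)
      _ ≤ _ := by linarith
  calc Gk N k r * (|(N : ℝ) * r - k| / (r * k)) ≤ 1 * (|(N : ℝ) * r - k| / (r * k)) :=
        mul_le_mul_of_nonneg_right hG (by positivity)
    _ ≤ _ := by rw [one_mul]; exact e2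

end

lemma sum_Gk {D P : ℕ} {r : ℝ} (hr : 0 ≤ r) :
    ∑ k ∈ Finset.Icc P (D * P), Gk (D * P) k r ^ 2 ≤ 2 := by
  have := count (y := ((D * P : ℕ) : ℝ) * r) (by positivity) (Finset.Icc P (D * P))
    (F := fun k => Gk (D * P) k r ^ 2) (c := 1) zero_le_one
    (fun k _ _ => pow_le_one₀ (Gk_nonneg _ _ _) (Gk_le_one _ _ _))
    (fun k _ h => by rw [Gk_supp h]; norm_num)
  linarith

lemma sum_Hk {D P : ℕ} (hD : 1 ≤ D) (hP : 2 ≤ P) {r : ℝ} (hr : 0 ≤ r) :
    ∑ k ∈ Finset.Icc P (D * P), Hk D (D * P) k r ^ 2 ≤ 4 := by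
  have := count (y := ((D * P : ℕ) : ℝ) * r) (by positivity) (Finset.Icc P (D * P))
    (F := fun k => Hk D (D * P) k r ^ 2) (c := 2) zero_le_two
    (fun k hk h => Hk_le hD hP (Finset.mem_Icc.1 hk).1 h)
    (fun k _ h => by simp only [Hk, Qk]; rw [Gk_supp h]; norm_num)
  linarith

lemma sum_Ek {D P : ℕ} (hD : 1 ≤ D) (hP : 2 ≤ P) {r : ℝ} (hr : 0 ≤ r) :
    ∑ k ∈ Finset.Icc P (D * P), Ek D (D * P) k r ^ 2 ≤ 2 * (2 * D / P) ^ 2 := 
  count (y := ((D * P : ℕ) : ℝ) * r) (by positivity) (Finset.Icc P (D * P))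
    (F := fun k => Ek D (D * P) k r ^ 2) (c := (2 * D / P) ^ 2) (sq_nonneg _)
    (fun k hk h => Ek_le hD hP (Finset.mem_Icc.1 hk).1 h)
    (fun k _ h => by simp only [Ek, Qk]; rw [Gk_supp h]; norm_num)

lemma th_nonneg (D : ℕ) (r : ℝ) : 0 ≤ th D r := le_min zero_le_one (le_max_left _ _)
lemma th_le_one (D : ℕ) (r : ℝ) : th D r ≤ 1 := min_le_left _ _

/-- the lower bound -/
lemma lower {D P : ℕ} (hD : 1 ≤ D) (hP : 2 ≤ P) {r : ℝ} (hr : 0 ≤ r) (hr1 : r ≤ 1) :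
    (th D r / √8) ^ 2 ≤ ∑ k ∈ Finset.Icc P (D * P), (√(kap (D * P) k) * (Gk (D * P) k r * r ^ (1 / 4 : ℝ))) ^ 2 := by
  have hD' : (1 : ℝ) ≤ D := by exact_mod_cast hD
  have hP' : (2 : ℝ) ≤ P := by exact_mod_cast hP
  have hnn : ∀ k ∈ Finset.Icc P (D * P), 0 ≤ (√(kap (D * P) k) * (Gk (D * P) k r * r ^ (1 / 4 : ℝ))) ^ 2 :=
    fun k _ => sq_nonneg _
  by_cases h0 : (D : ℝ) * r ≤ 2
  · have : th D r = 0 := by
      unfold th
      rw [max_eq_left (by linarith)]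
      exact min_eq_right zero_le_one
    rw [this]
    simp only [zero_div]
    rw [zero_pow two_ne_zero]
    exact Finset.sum_nonneg hnn
  push Not at h0
  set N : ℕ := D * P with hN
  have hNr : (N : ℝ) = D * P := by rw [hN]; push_cast; ring
  have hr0 : 0 < r := by
    by_contra hcon
    have : r = 0 := le_antisymm (not_lt.1 hcon) hr
    rw [this] at h0; norm_num at h0
  -- nearest integer
  set k : ℕ := ⌊(N : ℝ) * r + 1 / 2⌋₊ with hkdef
  have hpos : 0 ≤ (N : ℝ) * r + 1 / 2 := by positivity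
  have hk1 : (k : ℝ) ≤ N * r + 1 / 2 := Nat.floor_le hpos
  have hk2 : (N : ℝ) * r + 1 / 2 < k + 1 := Nat.lt_floor_add_one _
  have hPN : 2 * (P : ℝ) < N * r := by rw [hNr]; nlinarith
  have hkP : P ≤ k := by
    have : (P : ℝ) < k := by linarith
    exact_mod_cast this.le
  have hkN : k ≤ N := by
    have h3 : (k : ℝ) < N + 1 := by nlinarith
    have h4 : k < N + 1 := by exact_mod_cast h3
    omega
  have hmem : k ∈ Finset.Icc P N := Finset.mem_Icc.2 ⟨hkP, hkN⟩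
  refine le_trans ?_ (Finset.single_le_sum hnn hmem)
  have hk0 : (0 : ℝ) < k := by
    have : (P : ℝ) < k := by linarith
    linarith
  have hN0 : (0 : ℝ) < N := by rw [hNr]; positivity
  have hG : 1 / 2 ≤ Gk N k r := by
    unfold Gk
    refine le_trans ?_ (le_max_right _ _)
    have : |(N : ℝ) * r - k| ≤ 1 / 2 := abs_le.2 ⟨by linarith, by linarith⟩
    linarith
  have hκ : 0 ≤ kap N k := Real.sqrt_nonneg _
  rw [mul_pow, Real.sq_sqrt hκ, mul_pow]
  have e1 : (r ^ (1 / 4 : ℝ)) ^ 2 = √r := by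
    rw [← Real.rpow_natCast, ← Real.rpow_mul hr, Real.sqrt_eq_rpow]
    norm_num
  rw [e1, div_pow, Real.sq_sqrt (by norm_num)]
  have h5 : (1 / 2 : ℝ) ≤ kap N k * √r := by
    unfold kap
    rw [mul_comm, ← Real.sqrt_mul hr]
    apply Real.le_sqrt_of_sq_le
    rw [mul_div_assoc', le_div_iff₀ hk0]
    nlinarith
  have h6 : th D r ^ 2 ≤ 1 := pow_le_one₀ (th_nonneg _ _) (th_le_one _ _)
  have h7 : (1 / 4 : ℝ) ≤ Gk N k r ^ 2 := by nlinarith
  calc th D r ^ 2 / 8 ≤ 1 / 8 := by linarith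
    _ = (1 / 4) * (1 / 2) := by norm_num
    _ ≤ Gk N k r ^ 2 * (kap N k * √r) := mul_le_mul h7 h5 (by norm_num) (sq_nonneg _)
    _ = kap N k * (Gk N k r ^ 2 * √r) := by ring

end Pool.Agent.H287.HK
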