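import Pool.Agent.H287.HK.Fc

/-! HK project, task HCAR: the Carleman inequality for Hilbert space valued functions, for one `κ`. -/

set_option autoImplicit false

noncomputable section

namespace Pool.Agent.H287.HK

open MeasureTheory Filter Topology Set
open scoped ENNReal NNReal InnerProductSpace
open Pool.Agent.H998.HK

/-- a countable family of real functionals computing the norm -/
lemma exists_family (H : Type) [NormedAddCommGroup H] [InnerProductSpace ℂ H] [CompleteSpace H]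
    [TopologicalSpace.SeparableSpace H] :
    ∃ (Λ : Type) (_ : Countable Λ) (L : Λ → H →L[ℝ] ℝ), (∀ l w, |L l w| ≤ ‖w‖) ∧
      ∀ w : H, ENNReal.ofReal (‖w‖ ^ 2) = ∑' l, ENNReal.ofReal (L l w ^ 2) := by
  obtain ⟨W, b, hb⟩ := exists_hilbertBasis ℂ H
  haveI : Countable W := by
    have h1 : (Set.univ : Set W).PairwiseDisjoint (fun i => Metric.ball (b i) (1 / 2)) := by
      intro i _ j _ hij
      apply Metric.ball_disjoint_ball
      have h2 : ‖b i - b j‖ ^ 2 = 2 := by
        rw [@norm_sub_sq ℂ, b.orthonormal.2 hij, b.orthonormal.1 i, b.orthonormal.1 j]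
        norm_num
      rw [dist_eq_norm]
      nlinarith [norm_nonneg (b i - b j)]
    have h3 := h1.countable_of_isOpen (fun i _ => Metric.isOpen_ball)
      (fun i _ => ⟨b i, Metric.mem_ball_self (by norm_num)⟩)
    exact Set.countable_univ_iff.1 h3
  let Lr : W → H →L[ℝ] ℝ := fun i => Complex.reCLM.comp ((innerSL ℂ (b i)).restrictScalars ℝ)
  let Li : W → H →L[ℝ] ℝ := fun i => Complex.imCLM.comp ((innerSL ℂ (b i)).restrictScalars ℝ)
  have hLr : ∀ i w, Lr i w = (inner ℂ (b i) w).re := fun i w => rfl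
  have hLi : ∀ i w, Li i w = (inner ℂ (b i) w).im := fun i w => rfl
  have hin : ∀ i w, ‖inner ℂ (b i) w‖ ≤ ‖w‖ := fun i w => by
    have := norm_inner_le_norm (𝕜 := ℂ) (b i) w
    rwa [b.orthonormal.1 i, one_mul] at this
  refine ⟨W ⊕ W, inferInstance, Sum.elim Lr Li, ?_, fun w => ?_⟩
  · rintro (i | i) w
    · exact (Complex.abs_re_le_norm _).trans (hin i w)
    · exact (Complex.abs_im_le_norm _).trans (hin i w)
  · have h1 := b.hasSum_inner_mul_inner w w
    have h2 : ∀ i, inner ℂ w (b i) * inner ℂ (b i) w = ((Lr i w ^ 2 + Li i w ^ 2 : ℝ) : ℂ) := by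
      intro i
      rw [hLr, hLi, ← inner_conj_symm w (b i)]
      rw [← Complex.normSq_eq_conj_mul_self, Complex.normSq_apply]
      push_cast
      ring
    have h3 : inner ℂ w w = ((‖w‖ ^ 2 : ℝ) : ℂ) := by
      rw [inner_self_eq_norm_sq_to_K]; simp
    simp_rw [h2] at h1
    rw [h3] at h1
    have h4 : HasSum (fun i => Lr i w ^ 2 + Li i w ^ 2) (‖w‖ ^ 2) := by exact_mod_cast h1
    rw [← h4.tsum_eq, ENNReal.ofReal_tsum_of_nonneg (fun i => by positivity) h4.summable]
    have h5 : ∀ i, ENNReal.ofReal (Lr i w ^ 2 + Li i w ^ 2) = ENNReal.ofReal (Lr i w ^ 2) + ENNReal.ofReal (Li i w ^ 2) :=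
      fun i => ENNReal.ofReal_add (sq_nonneg _) (sq_nonneg _)
    simp_rw [h5]
    rw [ENNReal.tsum_add, Summable.tsum_sum ENNReal.summable ENNReal.summable]
    rfl

lemma test_pd {φ : E3 → ℝ} (hφ : Test φ) (i : Fin 3) : Continuous (pd i φ) ∧ HasCompactSupport (pd i φ) := by
  constructor
  · have h1 : Continuous (fderiv ℝ φ) := hφ.1.continuous_fderiv (by simp)
    exact h1.clm_apply continuous_const
  · exact (hφ.2.fderiv (𝕜 := ℝ)).comp_left (g := fun T : E3 →L[ℝ] ℝ => T (EuclideanSpace.single i (1 : ℝ))) (by simp)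

section
variable {H : Type} [NormedAddCommGroup H] [InnerProductSpace ℂ H] [CompleteSpace H]

lemma int_smul {ψ : E3 → ℝ} (h1 : Continuous ψ) (h2 : HasCompactSupport ψ) {w : E3 → H} (hw : MemLp w 2) :
    Integrable (fun x => ψ x • w x) := by
  have h3 : MemLp ψ 2 := h1.memLp_of_hasCompactSupport h2
  have h4 : MemLp (fun x => ψ x • w x) 1 := MemLp.smul (𝕜 := ℝ) (φ := ψ) (f := w) hw h3
  exact memLp_one_iff_integrable.1 h4

lemma int_smul' {ψ : E3 → ℝ} (h1 : Continuous ψ) (h2 : HasCompactSupport ψ) {w : E3 → H} (hw : Integrable w) :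
    Integrable (fun x => ψ x • w x) := by
  obtain ⟨K, hK⟩ := h2.exists_bound_of_continuous h1
  exact Integrable.bdd_smul (𝕜 := ℝ) hw K h1.aestronglyMeasurable (Eventually.of_forall hK)

/-- `V u` is integrable -/
lemma int_Vu {V : E3 → ℝ} (hV : Measurable V) {r0 M : ℝ}
    (hVM : (∫⁻ x in Metric.closedBall (0 : E3) r0, ENNReal.ofReal (|V x| ^ (3 / 2 : ℝ))) ^ (2 / 3 : ℝ) ≤
      ENNReal.ofReal M) {u : E3 → H} (hu : MemLp u 2) (hu0 : ∀ x, r0 < ‖x‖ → u x = 0)
    (hVu : ∫⁻ x, ENNReal.ofReal (|V x| * ‖u x‖ ^ 2) < ∞) : Integrable (fun x => V x • u x) := by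
  refine ⟨hV.aestronglyMeasurable.smul hu.1, ?_⟩
  have hfin : ∫⁻ x in Metric.closedBall (0 : E3) r0, ENNReal.ofReal (|V x| ^ (3 / 2 : ℝ)) < ∞ := by
    by_contra hcon
    rw [not_lt, top_le_iff] at hcon
    rw [hcon, ENNReal.top_rpow_of_pos (by norm_num)] at hVM
    exact absurd hVM (by simp)
  rw [HasFiniteIntegral]
  have h1 : ∀ x, ‖V x • u x‖ₑ ≤ (Metric.closedBall (0 : E3) r0).indicator (fun x => 1 + ENNReal.ofReal (|V x| ^ (3 / 2 : ℝ))) x +
      ENNReal.ofReal (|V x| * ‖u x‖ ^ 2) := by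
    intro x
    by_cases hx : x ∈ Metric.closedBall (0 : E3) r0
    · rw [Set.indicator_of_mem hx, ← ofReal_norm, norm_smul, Real.norm_eq_abs]
      rw [← ENNReal.ofReal_one, ← ENNReal.ofReal_add zero_le_one (by positivity),
        ← ENNReal.ofReal_add (by positivity) (by positivity)]
      apply ENNReal.ofReal_le_ofReal
      have h2 : |V x| ≤ 1 + |V x| ^ (3 / 2 : ℝ) := by
        rcases le_total |V x| 1 with h | h
        · have : 0 ≤ |V x| ^ (3 / 2 : ℝ) := by positivity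
          linarith
        · have := Real.rpow_le_rpow_of_exponent_le h (show (1:ℝ) ≤ 3 / 2 by norm_num)
          rw [Real.rpow_one] at this
          linarith
      have h3 : ‖u x‖ ≤ 1 + ‖u x‖ ^ 2 := by nlinarith [sq_nonneg (‖u x‖ - 1), norm_nonneg (u x)]
      calc |V x| * ‖u x‖ ≤ |V x| * (1 + ‖u x‖ ^ 2) := mul_le_mul_of_nonneg_left h3 (abs_nonneg _)
        _ ≤ _ := by rw [mul_add, mul_one]; linarith
    · have : u x = 0 := by
        apply hu0
        simpa using hx
      rw [this]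
      simp
  refine lt_of_le_of_lt (lintegral_mono h1) ?_
  rw [lintegral_add_left']
  · refine ENNReal.add_lt_top.2 ⟨?_, hVu⟩
    rw [lintegral_indicator Metric.isClosed_closedBall.measurableSet, lintegral_add_left measurable_const]
    refine ENNReal.add_lt_top.2 ⟨?_, hfin⟩
    rw [setLIntegral_one]
    exact measure_closedBall_lt_top
  · apply Measurable.aemeasurable
    apply Measurable.indicator _ Metric.isClosed_closedBall.measurableSet
    apply Measurable.const_add
    exact (((continuous_abs.measurable.comp hV).pow_const _)).ennreal_ofReal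

def sg (t : ℝ) : ℝ := if 0 ≤ t then 1 else -1

lemma sg_mul (t : ℝ) : sg t * |t| = t := by
  unfold sg
  split_ifs with h
  · rw [abs_of_nonneg h, one_mul]
  · rw [abs_of_neg (not_le.1 h)]; ring

lemma sg_sq (t : ℝ) : sg t ^ 2 = 1 := by
  unfold sg
  split_ifs <;> norm_num

lemma sg_meas : Measurable sg := Measurable.ite measurableSet_Ici measurable_const measurable_const

/-- the inequality of `S_STAR`, for `κ` and the constant `C` -/
lemma vstar [TopologicalSpace.SeparableSpace H] {C : ℝ≥0}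
    (hC : ∀ (V : E3 → ℝ) (κ ρ r0 M : ℝ) (m : ℕ) (u g₁ g₂ g₃ : E3 → ℝ)
      (D : Fin 3 → E3 → ℝ), Measurable V → 1 ≤ κ → 0 < ρ → ρ < r0 → r0 ≤ 1 → 1 ≤ m → 0 ≤ M →
      (∫⁻ x in Metric.closedBall (0 : E3) r0, ENNReal.ofReal (|V x| ^ (3 / 2 : ℝ))) ^ (2 / 3 : ℝ) ≤
        ENNReal.ofReal M →
      MemLp u 2 → (∀ i, MemLp (D i) 2) → MemLp g₁ 2 → MemLp g₂ 2 → MemLp g₃ 2 → WeakGrad u D →
      WeakEq κ u D (fun x => √|V x| * g₁ x + √κ * g₂ x + g₃ x) →
      (∀ x, (‖x‖ < ρ ∨ r0 < ‖x‖) → u x = 0 ∧ g₁ x = 0 ∧ g₂ x = 0 ∧ g₃ x = 0 ∧ ∀ i, D i x = 0) →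
      (∫⁻ x, om2 m x * ENNReal.ofReal (|V x| * u x ^ 2)) + ENNReal.ofReal κ *
          ∫⁻ x, om2 m x * ENNReal.ofReal (u x ^ 2) ≤
        C * ENNReal.ofReal ((M + r0) ^ 2) *
          ∫⁻ x, om2 m x * ENNReal.ofReal (g₁ x ^ 2 + g₂ x ^ 2 + g₃ x ^ 2))
    {V : E3 → ℝ} {κ ρ r0 M : ℝ} {m : ℕ} {u g₂ g₃ : E3 → H} {D : Fin 3 → E3 → H} (hV : Measurable V)
    (hκ : 1 ≤ κ) (hρ : 0 < ρ) (hρr : ρ < r0) (hr : r0 ≤ 1) (hm : 1 ≤ m) (hM : 0 ≤ M)
    (hVM : (∫⁻ x in Metric.closedBall (0 : E3) r0, ENNReal.ofReal (|V x| ^ (3 / 2 : ℝ))) ^ (2 / 3 : ℝ) ≤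
      ENNReal.ofReal M) (hu : MemLp u 2) (hD : ∀ i, MemLp (D i) 2) (hg2 : MemLp g₂ 2) (hg3 : MemLp g₃ 2)
    (hw : WeakGrad u D) (hVu : ∫⁻ x, ENNReal.ofReal (|V x| * ‖u x‖ ^ 2) < ∞)
    (heq : ∀ φ : E3 → ℝ, Test φ → ∫ x, (∑ i, pd i φ x • D i x + (κ ^ 2 * φ x) • u x) =
      ∫ x, (φ x • V x • u x + (√κ * φ x) • g₂ x + φ x • g₃ x))
    (hsup : ∀ x, (‖x‖ < ρ ∨ r0 < ‖x‖) → u x = 0 ∧ g₂ x = 0 ∧ g₃ x = 0 ∧ ∀ i, D i x = 0) :
    (∫⁻ x, om2 m x * ENNReal.ofReal (|V x| * ‖u x‖ ^ 2)) + ENNReal.ofReal κ *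
        ∫⁻ x, om2 m x * ENNReal.ofReal (‖u x‖ ^ 2) ≤
      C * ENNReal.ofReal ((M + r0) ^ 2) *
        ∫⁻ x, om2 m x * ENNReal.ofReal (|V x| * ‖u x‖ ^ 2 + ‖g₂ x‖ ^ 2 + ‖g₃ x‖ ^ 2) := by
  obtain ⟨Λ, hΛ, L, hL, hsum⟩ := exists_family H
  have hint := int_Vu hV hVM hu (fun x hx => (hsup x (Or.inr hx)).1) hVu
  have hmL : ∀ l {w : E3 → H}, AEStronglyMeasurable w volume → AEMeasurable (fun x => L l (w x)) := fun l w hw =>
    ((L l).continuous.comp_aestronglyMeasurable hw).aemeasurable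
  have hom : Measurable (om2 m) := by
    unfold om2
    exact (measurable_norm.pow_const _).ennreal_ofReal
  -- the scalar inequality
  have key : ∀ l, (∫⁻ x, om2 m x * ENNReal.ofReal (|V x| * (L l (u x)) ^ 2)) + ENNReal.ofReal κ *
        ∫⁻ x, om2 m x * ENNReal.ofReal ((L l (u x)) ^ 2) ≤
      C * ENNReal.ofReal ((M + r0) ^ 2) *
        ∫⁻ x, om2 m x * ENNReal.ofReal (|V x| * (L l (u x)) ^ 2 + (L l (g₂ x)) ^ 2 + (L l (g₃ x)) ^ 2) := by
    intro l
    have hsg : ∀ x, sg (V x) * |V x| = V x := fun x => sg_mul (V x)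
    set g₁ : E3 → ℝ := fun x => sg (V x) * √|V x| * L l (u x) with hg1
    have hg1sq : ∀ x, g₁ x ^ 2 = |V x| * (L l (u x)) ^ 2 := by
      intro x
      rw [hg1]
      simp only
      rw [mul_pow, mul_pow, Real.sq_sqrt (abs_nonneg _), sg_sq, one_mul]
    have hL2 : ∀ {w : E3 → H}, MemLp w 2 → MemLp (fun x => L l (w x)) 2 := fun hw =>
      (L l).comp_memLp' hw
    have hg1m : MemLp g₁ 2 := by
      have hmeas : AEStronglyMeasurable g₁ volume := by
        rw [hg1]
        apply AEStronglyMeasurable.mul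
        · apply Measurable.aestronglyMeasurable
          apply Measurable.mul
          · exact sg_meas.comp hV
          · exact (Real.continuous_sqrt.measurable.comp (continuous_abs.measurable.comp hV))
        · exact (L l).continuous.comp_aestronglyMeasurable hu.1
      refine (memLp_two_iff_integrable_sq hmeas).2 ⟨hmeas.pow 2, ?_⟩
      rw [HasFiniteIntegral]
      refine lt_of_le_of_lt (lintegral_mono fun x => ?_) hVu
      show ‖g₁ x ^ 2‖ₑ ≤ _
      rw [hg1sq, ← ofReal_norm, Real.norm_eq_abs, abs_of_nonneg (by positivity)]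
      apply ENNReal.ofReal_le_ofReal
      have : L l (u x) ^ 2 ≤ ‖u x‖ ^ 2 := by
        rw [← sq_abs]
        exact pow_le_pow_left₀ (abs_nonneg _) (hL l (u x)) 2
      exact mul_le_mul_of_nonneg_left this (abs_nonneg _)
    have hST := hC V κ ρ r0 M m (fun x => L l (u x)) g₁ (fun x => L l (g₂ x)) (fun x => L l (g₃ x))
      (fun i x => L l (D i x)) hV hκ hρ hρr hr hm hM hVM (hL2 hu) (fun i => hL2 (hD i)) hg1m (hL2 hg2) (hL2 hg3)
      (by
        intro i φ hφ
        have h1 := congrArg (L l) (hw i φ hφ)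
        obtain ⟨c1, c2⟩ := test_pd hφ i
        rw [map_neg, ← (L l).integral_comp_comm (int_smul c1 c2 hu),
          ← (L l).integral_comp_comm (int_smul hφ.1.continuous hφ.2 (hD i))] at h1
        simpa using h1)
      (by
        intro φ hφ
        have h1 := congrArg (L l) (heq φ hφ)
        have i1 : Integrable (fun x => ∑ i, pd i φ x • D i x + (κ ^ 2 * φ x) • u x) := by
          apply Integrable.add
          · apply integrable_finsetSum
            intro i _
            exact int_smul (test_pd hφ i).1 (test_pd hφ i).2 (hD i)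
          · exact int_smul (continuous_const.mul hφ.1.continuous) hφ.2.mul_left hu
        have i2 : Integrable (fun x => φ x • V x • u x + (√κ * φ x) • g₂ x + φ x • g₃ x) := by
          apply Integrable.add
          · apply Integrable.add
            · exact int_smul' hφ.1.continuous hφ.2 hint
            · exact int_smul (continuous_const.mul hφ.1.continuous) hφ.2.mul_left hg2
          · exact int_smul hφ.1.continuous hφ.2 hg3
        rw [← (L l).integral_comp_comm i1, ← (L l).integral_comp_comm i2] at h1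
        simp only [map_add, map_sum, map_smul, smul_eq_mul] at h1
        refine Eq.trans (Eq.trans ?_ h1) ?_
        · congr 1
          ext x
          congr 1
          · exact Finset.sum_congr rfl fun i _ => by ring
          · ring
        · congr 1
          ext x
          rw [hg1]
          simp only
          have h3 : V x = sg (V x) * (√|V x| * √|V x|) := by
            rw [Real.mul_self_sqrt (abs_nonneg _)]; exact (hsg x).symm
          have h4 : V x * L l (u x) = √|V x| * (sg (V x) * √|V x| * L l (u x)) := by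
            conv_lhs => rw [h3]
            ring
          rw [← h4]
          ring)
      (by
        intro x hx
        obtain ⟨a1, a2, a3, a4⟩ := hsup x hx
        refine ⟨by simp [a1], by simp [hg1, a1], by simp [a2], by simp [a3], fun i => by simp [a4 i]⟩)
    simp_rw [hg1sq] at hST
    exact hST
  have hT : ∀ {w : E3 → H} {a : E3 → ℝ}, AEStronglyMeasurable w volume → Measurable a → (∀ x, 0 ≤ a x) →
      ∫⁻ x, om2 m x * ENNReal.ofReal (a x * ‖w x‖ ^ 2) =
        ∑' l, ∫⁻ x, om2 m x * ENNReal.ofReal (a x * (L l (w x)) ^ 2) := by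
    intro w a hw ha ha0
    rw [← lintegral_tsum]
    · congr 1
      ext x
      rw [ENNReal.tsum_mul_left, ENNReal.ofReal_mul (ha0 x), hsum]
      simp_rw [ENNReal.ofReal_mul (ha0 x)]
      rw [ENNReal.tsum_mul_left]
    · intro l
      exact hom.aemeasurable.mul (ha.aemeasurable.mul ((hmL l hw).pow_const 2)).ennreal_ofReal
  have hT1 : ∀ {w : E3 → H}, AEStronglyMeasurable w volume →
      ∫⁻ x, om2 m x * ENNReal.ofReal (‖w x‖ ^ 2) =
        ∑' l, ∫⁻ x, om2 m x * ENNReal.ofReal ((L l (w x)) ^ 2) := by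
    intro w hw
    have := hT hw (a := fun _ => 1) measurable_const (fun _ => zero_le_one)
    simpa using this
  have hS : ∀ {f₁ f₂ f₃ : E3 → ℝ}, AEMeasurable f₁ → AEMeasurable f₂ → AEMeasurable f₃ →
      (∀ x, 0 ≤ f₁ x) → (∀ x, 0 ≤ f₂ x) → (∀ x, 0 ≤ f₃ x) →
      ∫⁻ x, om2 m x * ENNReal.ofReal (f₁ x + f₂ x + f₃ x) = (∫⁻ x, om2 m x * ENNReal.ofReal (f₁ x)) +
        (∫⁻ x, om2 m x * ENNReal.ofReal (f₂ x)) + ∫⁻ x, om2 m x * ENNReal.ofReal (f₃ x) := by
    intro f₁ f₂ f₃ h1 h2 h3 p1 p2 p3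
    have m1 : AEMeasurable (fun x => om2 m x * ENNReal.ofReal (f₁ x)) volume := hom.aemeasurable.mul h1.ennreal_ofReal
    have m2 : AEMeasurable (fun x => om2 m x * ENNReal.ofReal (f₂ x)) volume := hom.aemeasurable.mul h2.ennreal_ofReal
    have e : ∀ x, om2 m x * ENNReal.ofReal (f₁ x + f₂ x + f₃ x) = (om2 m x * ENNReal.ofReal (f₁ x) +
        om2 m x * ENNReal.ofReal (f₂ x)) + om2 m x * ENNReal.ofReal (f₃ x) := by
      intro x
      rw [ENNReal.ofReal_add (add_nonneg (p1 x) (p2 x)) (p3 x), ENNReal.ofReal_add (p1 x) (p2 x), mul_add, mul_add]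
    simp_rw [e]
    have e2 := lintegral_add_left' (μ := (volume : Measure E3)) (m1.add m2) (fun x => om2 m x * ENNReal.ofReal (f₃ x))
    have e3 := lintegral_add_left' (μ := (volume : Measure E3)) m1 (fun x => om2 m x * ENNReal.ofReal (f₂ x))
    rw [← e3]
    exact e2
  have hVa : Measurable (fun x => |V x|) := continuous_abs.measurable.comp hV
  have e1 := hS (f₁ := fun x => |V x| * ‖u x‖ ^ 2) (f₂ := fun x => ‖g₂ x‖ ^ 2) (f₃ := fun x => ‖g₃ x‖ ^ 2)
    (hVa.aemeasurable.mul (hu.1.norm.aemeasurable.pow_const 2)) (hg2.1.norm.aemeasurable.pow_const 2)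
    (hg3.1.norm.aemeasurable.pow_const 2) (fun x => by positivity) (fun x => by positivity) (fun x => by positivity)
  rw [e1,
    hT hu.1 hVa (fun x => abs_nonneg _), hT1 hu.1, hT1 hg2.1, hT1 hg3.1, ← ENNReal.tsum_mul_left,
    ← ENNReal.tsum_add, ← ENNReal.tsum_add, ← ENNReal.tsum_add, ← ENNReal.tsum_mul_left]
  refine ENNReal.tsum_le_tsum fun l => (key l).trans ?_
  have e2 := hS (f₁ := fun x => |V x| * (L l (u x)) ^ 2) (f₂ := fun x => (L l (g₂ x)) ^ 2)
    (f₃ := fun x => (L l (g₃ x)) ^ 2) (hVa.aemeasurable.mul ((hmL l hu.1).pow_const 2)) ((hmL l hg2.1).pow_const 2)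
    ((hmL l hg3.1).pow_const 2) (fun x => by positivity) (fun x => by positivity) (fun x => by positivity)
  rw [e2]

end

end Pool.Agent.H287.HK
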